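import Mathlib

set_option autoImplicit false
set_option linter.unusedVariables false

namespace Pool.Agent.Results.MP_43ce8a_nt.TwoFamilies


/-- `n` is a sum of three positive integers whose product is the cube of an integer. -/
def InS (n : ℕ) : Prop :=
  ∃ x y z m : ℤ, 0 < x ∧ 0 < y ∧ 0 < z ∧ (n : ℤ) = x + y + z ∧ x * y * z = m ^ 3

/-- signs can be made positive by the two reflections -/
theorem positive_rep (A C m n : ℤ) (hA : 0 < A) (hC : 0 < C) (hm : 0 < m) (hn : 0 < n)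
    (h1 : ∀ k : ℤ, n ≠ A * k ^ 2) (h2 : ∀ k : ℤ, n ≠ C * k ^ 2) :
    ∀ (N : ℕ) (u v : ℤ), u.natAbs + v.natAbs ≤ N →
      n = A * u ^ 2 + A * C * m * u * v + C * v ^ 2 →
      ∃ u' v' : ℤ, 0 < u' ∧ 0 < v' ∧ n = A * u' ^ 2 + A * C * m * u' * v' + C * v' ^ 2 := by
  intro N
  induction N using Nat.strong_induction_on with
  | _ N ih =>
  intro u v hN h
  -- the case u > 0, v < 0 with the induction hypothesis
  have core : ∀ u w : ℤ, 0 < u → 0 < w → u.natAbs + w.natAbs ≤ N →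
      n = A * u ^ 2 - A * C * m * u * w + C * w ^ 2 →
      ∃ u' v' : ℤ, 0 < u' ∧ 0 < v' ∧ n = A * u' ^ 2 + A * C * m * u' * v' + C * v' ^ 2 := by
    intro u w hu hw hNN h
    have e1 : n = A * (u - C * m * w) ^ 2 + A * C * m * (u - C * m * w) * w + C * w ^ 2 := by
      rw [h]; ring
    have e2 : n = A * u ^ 2 + A * C * m * u * (A * m * u - w) * (-1) + C * (A * m * u - w) ^ 2 := by
      rw [h]; ring
    rcases lt_trichotomy (u - C * m * w) 0 with hneg | hzero | hpos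
    · rcases lt_trichotomy (A * m * u - w) 0 with hneg2 | hzero2 | hpos2
      · refine ⟨u, w - A * m * u, hu, by linarith, ?_⟩
        rw [h]; ring
      · exfalso
        rw [hzero2] at e2
        apply h1 u
        rw [e2]; ring
      · -- both reductions keep mixed signs; one of them is smaller
        by_cases hc : C * m * w < 2 * u
        · have hlt : (u - C * m * w).natAbs + w.natAbs < N := by
            have : (u - C * m * w).natAbs < u.natAbs := by omega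
            omega
          exact ih _ hlt (u - C * m * w) w le_rfl e1
        · by_cases hc2 : A * m * u < 2 * w
          · have hlt : u.natAbs + (-(A * m * u - w)).natAbs < N := by
              have : (-(A * m * u - w)).natAbs < w.natAbs := by omega
              omega
            refine ih _ hlt u (-(A * m * u - w)) le_rfl ?_
            rw [e2]; ring
          · exfalso
            push Not at hc hc2
            have k1 : A * u * (2 * u) ≤ A * u * (C * m * w) :=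
              mul_le_mul_of_nonneg_left hc (by positivity)
            have k2 : C * w * (2 * w) ≤ C * w * (A * m * u) :=
              mul_le_mul_of_nonneg_left hc2 (by positivity)
            nlinarith
    · exfalso
      rw [hzero] at e1
      apply h2 w
      rw [e1]; ring
    · exact ⟨u - C * m * w, w, hpos, hw, e1⟩
  rcases lt_trichotomy u 0 with hu | hu | hu
  · rcases lt_trichotomy v 0 with hv | hv | hv
    · refine ⟨-u, -v, by linarith, by linarith, ?_⟩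
      rw [h]; ring
    · exfalso; apply h1 u; rw [h, hv]; ring
    · refine core (-u) v (by linarith) hv (by simpa using hN) ?_
      rw [h]; ring
  · exfalso; apply h2 v; rw [h, hu]; ring
  · rcases lt_trichotomy v 0 with hv | hv | hv
    · refine core u (-v) hu (by linarith) (by simpa using hN) ?_
      rw [h]; ring
    · exfalso; apply h1 u; rw [h, hv]; ring
    · exact ⟨u, v, hu, hv, h⟩

/-- a form `A u² + A C m u v + C v²` with `A² C² m` a cube gives elements of `S` -/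
theorem inS_of_form (A C m t : ℤ) (n : ℕ) (hA : 0 < A) (hC : 0 < C) (hm : 0 < m) (hn : 0 < n)
    (ht : A ^ 2 * C ^ 2 * m = t ^ 3)
    (h1 : ∀ k : ℤ, (n : ℤ) ≠ A * k ^ 2) (h2 : ∀ k : ℤ, (n : ℤ) ≠ C * k ^ 2) (u v : ℤ)
    (h : (n : ℤ) = A * u ^ 2 + A * C * m * u * v + C * v ^ 2) : InS n := by
  obtain ⟨a, b, ha, hb, hab⟩ := positive_rep A C m n hA hC hm (by exact_mod_cast hn) h1 h2
    (u.natAbs + v.natAbs) u v le_rfl h
  refine ⟨A * a ^ 2, A * C * m * a * b, C * b ^ 2, t * a * b, by positivity, by positivity,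
    by positivity, hab, ?_⟩
  calc A * a ^ 2 * (A * C * m * a * b) * (C * b ^ 2)
      = (A ^ 2 * C ^ 2 * m) * (a * b) ^ 3 := by ring
    _ = (t * a * b) ^ 3 := by rw [ht]; ring

/-- reduction of an indefinite binary quadratic form representing `p` -/
theorem reduced_rep (D p : ℤ) (hsq : ∀ k : ℤ, k ^ 2 ≠ D) (s c : ℤ)
    (h : s ^ 2 - 4 * p * c = D) :
    ∃ a b c x y : ℤ, b ^ 2 - 4 * a * c = D ∧ |b| ≤ |a| ∧ |a| ≤ |c| ∧
      a * x ^ 2 + b * x * y + c * y ^ 2 = p := by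
  classical
  have hex : ∃ k : ℕ, ∃ a b c x y : ℤ, b ^ 2 - 4 * a * c = D ∧ a.natAbs = k ∧
      a * x ^ 2 + b * x * y + c * y ^ 2 = p :=
    ⟨p.natAbs, p, s, c, 1, 0, h, rfl, by ring⟩
  obtain ⟨a, b, c, x, y, h1, h2, h3⟩ := Nat.find_spec hex
  have ha : a ≠ 0 := by
    rintro rfl
    exact hsq b (by linarith)
  have hq : ∃ q : ℤ, |b + 2 * a * q| ≤ |a| := by
    have hpos : 0 < 2 * |a| := by positivity
    have e := Int.emod_add_mul_ediv (b + |a|) (2 * |a|)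
    have r0 := Int.emod_nonneg (b + |a|) hpos.ne'
    have r1 := Int.emod_lt_of_pos (b + |a|) hpos
    rcases abs_cases a with ⟨hA, _⟩ | ⟨hA, _⟩
    · refine ⟨-((b + |a|) / (2 * |a|)), ?_⟩
      have : b + 2 * a * (-((b + |a|) / (2 * |a|))) = (b + |a|) % (2 * |a|) - |a| := by
        have : 2 * a = 2 * |a| := by rw [hA]
        rw [this]; linarith
      rw [this, abs_le]; constructor <;> linarith
    · refine ⟨(b + |a|) / (2 * |a|), ?_⟩
      have : b + 2 * a * ((b + |a|) / (2 * |a|)) = (b + |a|) % (2 * |a|) - |a| := by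
        have : 2 * a = -(2 * |a|) := by rw [hA]; ring
        rw [this]; linarith
      rw [this, abs_le]; constructor <;> linarith
  obtain ⟨q, hq⟩ := hq
  refine ⟨a, b + 2 * a * q, a * q ^ 2 + b * q + c, x - q * y, y, ?_, hq, ?_, ?_⟩
  · rw [← h1]; ring
  · have hmin := Nat.find_min' hex (m := (a * q ^ 2 + b * q + c).natAbs)
      ⟨a * q ^ 2 + b * q + c, b + 2 * a * q, a, y, x - q * y, by rw [← h1]; ring, rfl, by
        rw [← h3]; ring⟩
    rw [← h2] at hmin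
    rw [Int.abs_eq_natAbs, Int.abs_eq_natAbs]
    exact_mod_cast hmin
  · rw [← h3]; ring

theorem bound_a (D a b c : ℤ) (hD : 0 < D) (h : b ^ 2 - 4 * a * c = D) (h1 : |b| ≤ |a|)
    (h2 : |a| ≤ |c|) : 4 * a ^ 2 ≤ D := by
  have hb : b ^ 2 ≤ a ^ 2 := sq_le_sq.2 h1
  have hac : a ^ 2 ≤ |a * c| := by
    rw [abs_mul, ← sq_abs a, sq]
    exact mul_le_mul_of_nonneg_left h2 (abs_nonneg a)
  rcases abs_cases (a * c) with ⟨hA, _⟩ | ⟨hA, _⟩
  · nlinarith [sq_nonneg b, sq_nonneg a]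
  · nlinarith [sq_nonneg b, sq_nonneg a]

theorem key605 : ∀ a ∈ Finset.Icc (-12 : ℤ) 12, ∀ b ∈ Finset.Icc (-12 : ℤ) 12, |b| ≤ |a| →
    (4 * a) ∣ (b ^ 2 - 605) →
    (b = a ∨ b = -a) ∧ (a = 1 ∨ a = -1 ∨ a = 5 ∨ a = -5 ∨ a = 11 ∨ a = -11) := by
  decide +kernel

theorem key1272 : ∀ a ∈ Finset.Icc (-17 : ℤ) 17, ∀ b ∈ Finset.Icc (-17 : ℤ) 17, |b| ≤ |a| →
    (4 * a) ∣ (b ^ 2 - 1272) →
    b = 0 ∧ (a = 1 ∨ a = -1 ∨ a = 2 ∨ a = -2 ∨ a = 3 ∨ a = -3 ∨ a = 6 ∨ a = -6) := by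
  decide +kernel

theorem enum605 (a b c : ℤ) (h : b ^ 2 - 4 * a * c = 605) (h1 : |b| ≤ |a|) (h2 : |a| ≤ |c|) :
    (b = a ∨ b = -a) ∧ ((a = 1 ∧ c = -151) ∨ (a = -1 ∧ c = 151) ∨
    (a = 5 ∧ c = -29) ∨ (a = -5 ∧ c = 29) ∨ (a = 11 ∧ c = -11) ∨ (a = -11 ∧ c = 11)) := by
  have ha := bound_a 605 a b c (by norm_num) h h1 h2
  have ha1 : a ≤ 12 := by nlinarith
  have ha2 : -12 ≤ a := by nlinarith
  have hb := abs_le.1 h1
  have ha3 : |a| ≤ 12 := abs_le.2 ⟨ha2, ha1⟩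
  have hk := key605 a (Finset.mem_Icc.2 ⟨ha2, ha1⟩) b
    (Finset.mem_Icc.2 ⟨by linarith, by linarith⟩) h1 ⟨c, by linarith⟩
  obtain ⟨hba, h3⟩ := hk
  refine ⟨hba, ?_⟩
  have hb2 : b ^ 2 = a ^ 2 := by rcases hba with rfl | rfl <;> ring
  rw [hb2] at h
  rcases h3 with rfl | rfl | rfl | rfl | rfl | rfl
  · exact Or.inl ⟨rfl, by linarith⟩
  · exact Or.inr (Or.inl ⟨rfl, by linarith⟩)
  · exact Or.inr (Or.inr (Or.inl ⟨rfl, by linarith⟩))
  · exact Or.inr (Or.inr (Or.inr (Or.inl ⟨rfl, by linarith⟩)))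
  · exact Or.inr (Or.inr (Or.inr (Or.inr (Or.inl ⟨rfl, by linarith⟩))))
  · exact Or.inr (Or.inr (Or.inr (Or.inr (Or.inr ⟨rfl, by linarith⟩))))

theorem enum1272 (a b c : ℤ) (h : b ^ 2 - 4 * a * c = 1272) (h1 : |b| ≤ |a|) (h2 : |a| ≤ |c|) :
    b = 0 ∧ ((a = 1 ∧ c = -318) ∨ (a = -1 ∧ c = 318) ∨
    (a = 2 ∧ c = -159) ∨ (a = -2 ∧ c = 159) ∨
    (a = 3 ∧ c = -106) ∨ (a = -3 ∧ c = 106) ∨
    (a = 6 ∧ c = -53) ∨ (a = -6 ∧ c = 53)) := by
  have ha := bound_a 1272 a b c (by norm_num) h h1 h2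
  have ha1 : a ≤ 17 := by nlinarith
  have ha2 : -17 ≤ a := by nlinarith
  have hb := abs_le.1 h1
  have ha3 : |a| ≤ 17 := abs_le.2 ⟨ha2, ha1⟩
  have hk := key1272 a (Finset.mem_Icc.2 ⟨ha2, ha1⟩) b
    (Finset.mem_Icc.2 ⟨by linarith, by linarith⟩) h1 ⟨c, by linarith⟩
  obtain ⟨rfl, h3⟩ := hk
  refine ⟨rfl, ?_⟩
  rcases h3 with rfl | rfl | rfl | rfl | rfl | rfl | rfl | rfl <;> omega

theorem sq_ne_of_between (k D r : ℤ) (hr : 0 ≤ r) (h1 : r ^ 2 < D) (h2 : D < (r + 1) ^ 2) :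
    k ^ 2 ≠ D := by
  intro h
  have a1 : r < |k| := by
    by_contra hc
    push Not at hc
    have := pow_le_pow_left₀ (abs_nonneg k) hc 2
    rw [sq_abs] at this; linarith
  have a2 : |k| < r + 1 := by
    by_contra hc
    push Not at hc
    have := pow_le_pow_left₀ (by linarith : (0:ℤ) ≤ r + 1) hc 2
    rw [sq_abs] at this; linarith
  omega

theorem lift_sq (p : ℕ) [Fact p.Prime] (d : ℤ) (h : IsSquare ((d : ℤ) : ZMod p)) :
    ∃ s : ℤ, (p : ℤ) ∣ s ^ 2 - d := by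
  obtain ⟨r, hr⟩ := h
  obtain ⟨s, hs⟩ := ZMod.intCast_surjective r
  refine ⟨s, ?_⟩
  rw [← ZMod.intCast_zmod_eq_zero_iff_dvd]
  push_cast
  rw [hs, hr]; ring

/-- a square root of `D` modulo `4 p` -/
theorem lift_odd (p : ℕ) (hp : p.Prime) (hp2 : p ≠ 2) (D s0 : ℤ) (hD : D % 4 = 1)
    (h : (p : ℤ) ∣ s0 ^ 2 - D) : ∃ s c : ℤ, s ^ 2 - 4 * p * c = D := by
  have hodd : p % 2 = 1 := hp.eq_two_or_odd.resolve_left hp2
  have hs : ∃ s : ℤ, s % 2 = 1 ∧ (p : ℤ) ∣ s ^ 2 - D := by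
    rcases Int.emod_two_eq_zero_or_one s0 with h0 | h0
    · refine ⟨s0 + p, by omega, ?_⟩
      have e2 : (s0 + (p : ℤ)) ^ 2 - D = (s0 ^ 2 - D) + p * (2 * s0 + p) := by ring
      rw [e2]
      exact dvd_add h (Dvd.intro _ rfl)
    · exact ⟨s0, h0, h⟩
  obtain ⟨s, hs1, hs2⟩ := hs
  have h4 : (4 : ℤ) ∣ s ^ 2 - D := by
    obtain ⟨k, hk⟩ : ∃ k, s = 2 * k + 1 := ⟨s / 2, by omega⟩
    obtain ⟨l, hl⟩ : ∃ l, D = 4 * l + 1 := ⟨D / 4, by omega⟩
    refine ⟨k ^ 2 + k - l, ?_⟩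
    rw [hk, hl]; ring
  have hcop : IsCoprime (4 : ℤ) (p : ℤ) := by
    rw [Int.isCoprime_iff_gcd_eq_one]
    have : Nat.Coprime 4 p := by
      rw [show (4:ℕ) = 2 ^ 2 by norm_num]
      apply Nat.Coprime.pow_left
      exact (Nat.coprime_primes Nat.prime_two hp).2 (Ne.symm hp2)
    exact_mod_cast this
  obtain ⟨c0, hc0⟩ := hcop.mul_dvd h4 hs2
  exact ⟨s, c0, by linarith⟩

theorem rep8 (p : ℕ) (hp : p.Prime) (h8 : p % 8 = 1 ∨ p % 8 = 7) :
    ∃ u v : ℤ, (p : ℤ) = 1 * u ^ 2 + 1 * 2 * 2 * u * v + 2 * v ^ 2 := by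
  have := Fact.mk hp
  have hp2 : p ≠ 2 := by rintro rfl; omega
  have h2 : IsSquare ((2 : ℤ) : ZMod p) := by
    have := (ZMod.exists_sq_eq_two_iff hp2).2 h8
    simpa using this
  obtain ⟨s, c0, hc0⟩ := lift_sq p 2 h2
  obtain ⟨a, b, c, x, y, e1, e2, e3, e4⟩ := reduced_rep 8 p
    (fun k => sq_ne_of_between k 8 2 (by norm_num) (by norm_num) (by norm_num)) (2 * s) c0
    (by linarith)
  have ha := bound_a 8 a b c (by norm_num) e1 e2 e3
  have ha1 : a ≤ 1 := by nlinarith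
  have ha2 : -1 ≤ a := by nlinarith
  have hb := abs_le.1 e2
  have ha3 : |a| ≤ 1 := abs_le.2 ⟨ha2, ha1⟩
  have hb1 : b ≤ 1 := by linarith
  have hb2 : -1 ≤ b := by linarith
  have hcases : (a = 1 ∧ b = 0 ∧ c = -2) ∨ (a = -1 ∧ b = 0 ∧ c = 2) := by
    interval_cases a <;> interval_cases b <;> omega
  rcases hcases with ⟨rfl, rfl, rfl⟩ | ⟨rfl, rfl, rfl⟩
  · exact ⟨x - 2 * y, y, by rw [← e4]; ring⟩
  · exact ⟨-x, x + y, by rw [← e4]; ring⟩

theorem sqneg3 (p : ℕ) [Fact p.Prime] (hp2 : p ≠ 2) (h3 : p % 3 = 1) :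
    IsSquare ((-3 : ℤ) : ZMod p) := by
  have : Fact (Nat.Prime 3) := ⟨by norm_num⟩
  have hp : p.Prime := Fact.out
  have hodd : p % 2 = 1 := hp.eq_two_or_odd.resolve_left hp2
  have hps : IsSquare (p : ZMod 3) := by
    have : (p : ZMod 3) = 1 := by
      have := (ZMod.natCast_eq_natCast_iff' p 1 3).2 (by omega)
      simpa using this
    rw [this]; exact ⟨1, by rfl⟩
  rcases (by omega : p % 4 = 1 ∨ p % 4 = 3) with h4 | h4
  · have a1 : IsSquare (-1 : ZMod p) := ZMod.exists_sq_eq_neg_one_iff.2 (by omega)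
    have a3 : IsSquare ((3 : ℕ) : ZMod p) :=
      (ZMod.exists_sq_eq_prime_iff_of_mod_four_eq_one (p := p) (q := 3) h4 (by norm_num)).2 hps
    have := a1.mul a3
    have e : ((-3 : ℤ) : ZMod p) = -1 * ((3 : ℕ) : ZMod p) := by push_cast; ring
    rw [e]; exact this
  · have a1 : ¬ IsSquare ((-1 : ℤ) : ZMod p) := by
      intro h
      have h' : IsSquare (-1 : ZMod p) := by simpa using h
      have := ZMod.exists_sq_eq_neg_one_iff.1 h'
      omega
    have a3 : ¬ IsSquare ((3 : ℤ) : ZMod p) := by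
      intro h
      have h' : IsSquare ((3 : ℕ) : ZMod p) := by simpa using h
      exact (ZMod.exists_sq_eq_prime_iff_of_mod_four_eq_three (p := p) (q := 3)
        h4 (by norm_num) (by rintro rfl; omega)).1 h' hps
    have l1 := (legendreSym.eq_neg_one_iff (p := p)).2 a1
    have l3 := (legendreSym.eq_neg_one_iff (p := p)).2 a3
    have l : legendreSym p (-1 * 3) = 1 := by
      rw [legendreSym.mul, l1, l3]; norm_num
    have n : ((-1 * 3 : ℤ) : ZMod p) ≠ 0 := by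
      intro h0
      rw [legendreSym.eq_zero_iff (p := p) (a := -1 * 3) |>.2 h0] at l
      norm_num at l
    have := (legendreSym.eq_one_iff p n).1 l
    simpa using this

theorem rep3 (p : ℕ) (hp : p.Prime) (h3 : p % 3 = 1) :
    ∃ u v : ℤ, (p : ℤ) = 1 * u ^ 2 + 1 * 1 * 1 * u * v + 1 * v ^ 2 := by
  have := Fact.mk hp
  have hp2 : p ≠ 2 := by rintro rfl; omega
  obtain ⟨s0, hs0⟩ := lift_sq p (-3) (sqneg3 p hp2 h3)
  obtain ⟨s, c0, hc0⟩ := lift_odd p hp hp2 (-3) s0 (by norm_num) hs0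
  obtain ⟨a, b, c, x, y, e1, e2, e3, e4⟩ := reduced_rep (-3) p
    (fun k => by nlinarith [sq_nonneg k]) s c0 hc0
  have hb : b ^ 2 ≤ a ^ 2 := sq_le_sq.2 e2
  have hac : a ^ 2 ≤ |a * c| := by
    rw [abs_mul, ← sq_abs a, sq]
    exact mul_le_mul_of_nonneg_left e3 (abs_nonneg a)
  have hpos : 0 < a * c := by nlinarith [sq_nonneg b]
  rw [abs_of_pos hpos] at hac
  have ha : a ^ 2 ≤ 1 := by nlinarith
  have ha1 : a ≤ 1 := by nlinarith
  have ha2 : -1 ≤ a := by nlinarith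
  have hb1 : b ≤ 1 := by nlinarith
  have hb2 : -1 ≤ b := by nlinarith
  have hp0 : (0 : ℤ) < p := by exact_mod_cast hp.pos
  have hcases : (a = 1 ∨ a = -1) ∧ (b = 1 ∨ b = -1) ∧ c = a := by
    interval_cases a <;> interval_cases b <;> omega
  clear hb ha hac
  obtain ⟨rfl | rfl, rfl | rfl, rfl⟩ := hcases
  · exact ⟨x, y, by rw [← e4]; ring⟩
  · exact ⟨x, -y, by rw [← e4]; ring⟩
  · exfalso
    nlinarith [sq_nonneg (2 * x - y), sq_nonneg y]
  · exfalso
    nlinarith [sq_nonneg (2 * x + y), sq_nonneg y]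

theorem sq_mod11 : ∀ r w : ZMod 11, 4 * (-1) * r ^ 2 = w ^ 2 → r = 0 := by decide
theorem sq_mod11' : ∀ r w : ZMod 11, 4 * (-5) * r ^ 2 = w ^ 2 → r = 0 := by decide

theorem z605 : (605 : ZMod 11) = 0 := by decide
theorem z11 : (11 : ZMod 11) = 0 := by decide
theorem n3 : ¬ IsSquare (2 : ZMod 3) := by decide

theorem rep605 (p : ℕ) (hp : p.Prime) (h5 : p % 5 = 1 ∨ p % 5 = 4) (hne : p ≠ 11)
    (h11 : IsSquare (p : ZMod 11)) :
    ∃ u v : ℤ, (p : ℤ) = 1 * u ^ 2 + 1 * 5 * 5 * u * v + 5 * v ^ 2 := by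
  have := Fact.mk hp
  have : Fact (Nat.Prime 5) := ⟨by norm_num⟩
  have : Fact (Nat.Prime 11) := ⟨by norm_num⟩
  have hp2 : p ≠ 2 := by rintro rfl; omega
  have hodd : p % 2 = 1 := hp.eq_two_or_odd.resolve_left hp2
  have hsq5 : IsSquare (p : ZMod 5) := by
    rcases h5 with h | h
    · have : (p : ZMod 5) = 1 := by
        have := (ZMod.natCast_eq_natCast_iff' p 1 5).2 (by omega)
        simpa using this
      rw [this]; exact ⟨1, by rfl⟩
    · have : (p : ZMod 5) = 4 := by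
        have := (ZMod.natCast_eq_natCast_iff' p 4 5).2 (by omega)
        simpa using this
      rw [this]; exact ⟨2, by rfl⟩
  have h5p : IsSquare ((5 : ℤ) : ZMod p) := by
    have := (ZMod.exists_sq_eq_prime_iff_of_mod_four_eq_one (p := 5) (q := p) (by norm_num) hp2).1 hsq5
    simpa using this
  obtain ⟨s0, hs0⟩ := lift_sq p 5 h5p
  have hs : ∃ s : ℤ, s % 2 = 1 ∧ (p : ℤ) ∣ s ^ 2 - 605 := by
    have e : (p : ℤ) ∣ (11 * s0) ^ 2 - 605 := by
      have := Dvd.dvd.mul_left hs0 121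
      have e2 : (11 * s0) ^ 2 - 605 = 121 * (s0 ^ 2 - 5) := by ring
      rw [e2]; exact this
    rcases Int.emod_two_eq_zero_or_one (11 * s0) with h0 | h0
    · refine ⟨11 * s0 + p, by omega, ?_⟩
      have e2 : (11 * s0 + (p : ℤ)) ^ 2 - 605 = ((11 * s0) ^ 2 - 605) + p * (22 * s0 + p) := by ring
      rw [e2]
      exact dvd_add e (Dvd.intro _ rfl)
    · exact ⟨11 * s0, h0, e⟩
  obtain ⟨s, hs1, hs2⟩ := hs
  have h4 : (4 : ℤ) ∣ s ^ 2 - 605 := by
    obtain ⟨k, hk⟩ : ∃ k, s = 2 * k + 1 := ⟨s / 2, by omega⟩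
    refine ⟨k ^ 2 + k - 151, ?_⟩
    rw [hk]; ring
  have hcop : IsCoprime (4 : ℤ) (p : ℤ) := by
    rw [Int.isCoprime_iff_gcd_eq_one]
    have : Nat.Coprime 4 p := by
      rw [show (4:ℕ) = 2 ^ 2 by norm_num]
      apply Nat.Coprime.pow_left
      exact (Nat.coprime_primes Nat.prime_two hp).2 (Ne.symm hp2)
    exact_mod_cast this
  obtain ⟨c0, hc0⟩ := hcop.mul_dvd h4 hs2
  obtain ⟨a, b, c, x, y, e1, e2, e3, e4⟩ := reduced_rep 605 p
    (fun k => sq_ne_of_between k 605 24 (by norm_num) (by norm_num) (by norm_num)) s c0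
    (by linarith)
  obtain ⟨hb, hc⟩ := enum605 a b c e1 e2 e3
  obtain ⟨r, hr⟩ := h11
  have hrp : (p : ZMod 11) ≠ 0 := by
    rw [Ne, ZMod.natCast_eq_zero_iff]
    intro hd
    exact hne ((Nat.prime_dvd_prime_iff_eq (by norm_num) hp).1 hd).symm
  have hr0 : r ≠ 0 := by rintro rfl; apply hrp; rw [hr]; ring
  have hid : 4 * a * (p : ℤ) = (2 * a * x + b * y) ^ 2 - 605 * y ^ 2 := by
    rw [← e4, ← e1]; ring
  have hid2 : (4 * (a : ZMod 11)) * r ^ 2 = ((2 * a * x + b * y : ℤ) : ZMod 11) ^ 2 := by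
    have := congrArg (Int.cast : ℤ → ZMod 11) hid
    push_cast at this
    rw [hr, z605] at this
    push_cast
    rw [← sub_eq_zero] at this ⊢
    rw [← this]; ring
  rcases hc with ⟨rfl, rfl⟩ | ⟨rfl, rfl⟩ | ⟨rfl, rfl⟩ | ⟨rfl, rfl⟩ | ⟨rfl, rfl⟩ | ⟨rfl, rfl⟩
  · rcases hb with rfl | rfl
    · exact ⟨-x + 12 * y, -y, by rw [← e4]; ring⟩
    · exact ⟨-x - 12 * y, y, by rw [← e4]; ring⟩
  · exfalso
    apply hr0
    exact sq_mod11 r _ (by simpa using hid2)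
  · rcases hb with rfl | rfl
    · exact ⟨-y, -x + 2 * y, by rw [← e4]; ring⟩
    · exact ⟨y, -x - 2 * y, by rw [← e4]; ring⟩
  · exfalso
    apply hr0
    exact sq_mod11' r _ (by simpa using hid2)
  · exfalso
    apply hrp
    rw [← Int.cast_natCast, ← e4]
    rcases hb with rfl | rfl
    · push_cast
      rw [z11]; ring
    · push_cast
      rw [z11]; ring
  · exfalso
    apply hrp
    rw [← Int.cast_natCast, ← e4]
    rcases hb with rfl | rfl
    · push_cast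
      rw [z11]; ring
    · push_cast
      rw [z11]; ring

theorem sq318 (p : ℕ) [Fact p.Prime] (h24 : p % 24 = 11) (h53 : ¬ IsSquare (p : ZMod 53)) :
    IsSquare ((318 : ℤ) : ZMod p) := by
  have : Fact (Nat.Prime 3) := ⟨by norm_num⟩
  have : Fact (Nat.Prime 53) := ⟨by norm_num⟩
  have hp2 : p ≠ 2 := by rintro rfl; omega
  have a2 : ¬ IsSquare ((2 : ℤ) : ZMod p) := by
    have := (ZMod.exists_sq_eq_two_iff hp2)
    intro h
    have h' : IsSquare (2 : ZMod p) := by simpa using h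
    have := this.1 h'
    omega
  have a53 : ¬ IsSquare ((53 : ℤ) : ZMod p) := by
    intro h
    have h' : IsSquare ((53 : ℕ) : ZMod p) := by simpa using h
    exact h53 ((ZMod.exists_sq_eq_prime_iff_of_mod_four_eq_one (p := 53) (q := p)
      (by norm_num) hp2).2 h')
  have a3 : IsSquare ((3 : ℤ) : ZMod p) := by
    have h3 : ¬ IsSquare (p : ZMod 3) := by
      have : (p : ZMod 3) = 2 := by
        have := (ZMod.natCast_eq_natCast_iff' p 2 3).2 (by omega)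
        simpa using this
      rw [this]; exact n3
    by_contra hc
    have hc' : ¬ IsSquare ((3 : ℕ) : ZMod p) := by simpa using hc
    exact h3 ((ZMod.exists_sq_eq_prime_iff_of_mod_four_eq_three (p := p) (q := 3)
      (by omega) (by norm_num) (by rintro rfl; omega)).not_left.1 hc')
  have l2 := (legendreSym.eq_neg_one_iff (p := p)).2 a2
  have l53 := (legendreSym.eq_neg_one_iff (p := p)).2 a53
  have l106 : legendreSym p (2 * 53) = 1 := by
    rw [legendreSym.mul, l2, l53]; norm_num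
  have n106 : ((2 * 53 : ℤ) : ZMod p) ≠ 0 := by
    intro h0
    rw [legendreSym.eq_zero_iff (p := p) (a := 2 * 53) |>.2 h0] at l106
    norm_num at l106
  have a106 : IsSquare ((2 * 53 : ℤ) : ZMod p) := (legendreSym.eq_one_iff p n106).1 l106
  have := a106.mul a3
  have e : ((318 : ℤ) : ZMod p) = ((2 * 53 : ℤ) : ZMod p) * ((3 : ℤ) : ZMod p) := by
    push_cast; norm_num
  rw [e]; exact this

theorem z318 : (318 : ZMod 53) = 0 := by decide
theorem z53 : (53 : ZMod 53) = 0 := by decide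
theorem s1 : (1 : ZMod 53) = 1 * 1 := by decide
theorem s2 : (-1 : ZMod 53) = 23 * 23 := by decide

theorem s6 : IsSquare (6 : ZMod 53) := by decide +kernel
theorem s6n : IsSquare (-6 : ZMod 53) := by decide +kernel
theorem s1n : IsSquare (-1 : ZMod 53) := by decide +kernel

theorem rep1272 (p : ℕ) (hp : p.Prime) (h24 : p % 24 = 11) (h53 : ¬ IsSquare (p : ZMod 53)) :
    ∃ u v : ℤ, (p : ℤ) = 2 * u ^ 2 + 2 * 3 * 6 * u * v + 3 * v ^ 2 := by
  have := Fact.mk hp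
  obtain ⟨s, hs⟩ := lift_sq p 318 (sq318 p h24 h53)
  obtain ⟨c0, hc0⟩ := hs
  obtain ⟨a, b, c, x, y, e1, e2, e3, e4⟩ := reduced_rep 1272 p
    (fun k => sq_ne_of_between k 1272 35 (by norm_num) (by norm_num) (by norm_num)) (2 * s) c0
    (by linarith)
  obtain ⟨rfl, hc⟩ := enum1272 a b c e1 e2 e3
  have hcast : (p : ZMod 53) = (a : ZMod 53) * (x : ZMod 53) ^ 2 + (c : ZMod 53) * (y : ZMod 53) ^ 2 := by
    have := congrArg (Int.cast : ℤ → ZMod 53) e4
    push_cast at this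
    rw [← this]; ring
  have hmod : (p : ℤ) % 3 = 2 := by omega
  have hsqs : ∀ w : ZMod 53, IsSquare (w ^ 2) := fun w => ⟨w, by ring⟩
  rcases hc with ⟨rfl, rfl⟩ | ⟨rfl, rfl⟩ | ⟨rfl, rfl⟩ | ⟨rfl, rfl⟩ | ⟨rfl, rfl⟩ | ⟨rfl, rfl⟩ |
    ⟨rfl, rfl⟩ | ⟨rfl, rfl⟩
  · exfalso
    apply h53
    rw [hcast]
    push_cast
    rw [z318]
    have : (1 : ZMod 53) * (x : ZMod 53) ^ 2 + -0 * (y : ZMod 53) ^ 2 = (x : ZMod 53) ^ 2 := by ring
    rw [this]; exact hsqs _
  · exfalso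
    apply h53
    rw [hcast]
    push_cast
    rw [z318]
    have : (-1 : ZMod 53) * (x : ZMod 53) ^ 2 + 0 * (y : ZMod 53) ^ 2 = (-1) * (x : ZMod 53) ^ 2 := by
      ring
    rw [this]; exact s1n.mul (hsqs _)
  · exact ⟨-x - 9 * y, y, by rw [← e4]; ring⟩
  · exfalso
    have e5 : (p : ℤ) = x ^ 2 + 3 * (53 * y ^ 2 - x ^ 2) := by rw [← e4]; ring
    have e6 : x ^ 2 % 3 = 0 ∨ x ^ 2 % 3 = 1 := by
      rcases (by omega : x % 3 = 0 ∨ x % 3 = 1 ∨ x % 3 = 2) with h | h | h <;>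
        simp [sq, Int.mul_emod, h]
    omega
  · exact ⟨-y, -x + 6 * y, by rw [← e4]; ring⟩
  · exfalso
    have e5 : (p : ℤ) = y ^ 2 + 3 * (35 * y ^ 2 - x ^ 2) := by rw [← e4]; ring
    have e6 : y ^ 2 % 3 = 0 ∨ y ^ 2 % 3 = 1 := by
      rcases (by omega : y % 3 = 0 ∨ y % 3 = 1 ∨ y % 3 = 2) with h | h | h <;>
        simp [sq, Int.mul_emod, h]
    omega
  · exfalso
    apply h53
    rw [hcast]
    push_cast
    rw [z53]
    have : (6 : ZMod 53) * (x : ZMod 53) ^ 2 + -0 * (y : ZMod 53) ^ 2 = 6 * (x : ZMod 53) ^ 2 := by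
      ring
    rw [this]; exact s6.mul (hsqs _)
  · exfalso
    apply h53
    rw [hcast]
    push_cast
    rw [z53]
    have : (-6 : ZMod 53) * (x : ZMod 53) ^ 2 + 0 * (y : ZMod 53) ^ 2 = (-6) * (x : ZMod 53) ^ 2 := by
      ring
    rw [this]; exact s6n.mul (hsqs _)

theorem not_mul_sq (p : ℕ) (hp : p.Prime) (k : ℤ) : (p : ℤ) ≠ 1 * k ^ 2 := by
  intro h
  have h2 : p = k.natAbs ^ 2 := by
    zify; rw [sq_abs]; linarith
  rw [h2] at hp
  exact Nat.Prime.not_prime_pow (le_refl 2) hp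

theorem inS_mul (p k : ℕ) (hk : 0 < k) (h : InS p) : InS (p * k) := by
  obtain ⟨x, y, z, m, hx, hy, hz, h1, h2⟩ := h
  have hk' : (0 : ℤ) < k := by exact_mod_cast hk
  refine ⟨x * k, y * k, z * k, m * k, by positivity, by positivity, by positivity, ?_, ?_⟩
  · push_cast; rw [h1]; ring
  · calc x * k * (y * k) * (z * k) = (x * y * z) * (k : ℤ) ^ 3 := by ring
      _ = (m * k) ^ 3 := by rw [h2]; ring

/-- `3 = 1 + 1 + 1` -/
theorem inS_three : InS 3 := ⟨1, 1, 1, 1, by norm_num, by norm_num, by norm_num, by norm_num, by norm_num⟩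

theorem inS_prime1 (p : ℕ) (hp : p.Prime) (h : p % 3 = 1) : InS p := by
  obtain ⟨u, v, huv⟩ := rep3 p hp h
  exact inS_of_form 1 1 1 1 p (by norm_num) (by norm_num) (by norm_num) hp.pos (by norm_num)
    (not_mul_sq p hp) (not_mul_sq p hp) u v huv

theorem inS_prime2 (p : ℕ) (hp : p.Prime) (h : p % 8 = 1 ∨ p % 8 = 7) : InS p := by
  obtain ⟨u, v, huv⟩ := rep8 p hp h
  exact inS_of_form 1 2 2 2 p (by norm_num) (by norm_num) (by norm_num) hp.pos (by norm_num)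
    (not_mul_sq p hp) (fun k hk => by omega) u v huv

/-- first new family -/
theorem inS_prime3 (p : ℕ) (hp : p.Prime) (h0 : p ≠ 11) (h5 : p % 5 = 1 ∨ p % 5 = 4)
    (h11 : IsSquare (p : ZMod 11)) : InS p := by
  obtain ⟨u, v, huv⟩ := rep605 p hp h5 h0 h11
  exact inS_of_form 1 5 5 5 p (by norm_num) (by norm_num) (by norm_num) hp.pos (by norm_num)
    (not_mul_sq p hp) (fun k hk => by omega) u v huv

/-- second new family -/
theorem inS_prime4 (p : ℕ) (hp : p.Prime) (h24 : p % 24 = 11) (h53 : ¬ IsSquare (p : ZMod 53)) :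
    InS p := by
  obtain ⟨u, v, huv⟩ := rep1272 p hp h24 h53
  exact inS_of_form 2 3 6 6 p (by norm_num) (by norm_num) (by norm_num) hp.pos (by norm_num)
    (fun k hk => by omega) (fun k hk => by omega) u v huv

theorem result (n : ℕ) (hn : 0 < n) (hS : ¬ InS n) (p : ℕ) (hp : p.Prime) (hpn : p ∣ n) :
    p = 2 ∨ p = 5 ∨ p = 11 ∨
    (p % 24 = 5 ∧ ¬ ((p % 5 = 1 ∨ p % 5 = 4) ∧ IsSquare (p : ZMod 11))) ∨
    (p % 24 = 11 ∧ IsSquare (p : ZMod 53) ∧
      ¬ ((p % 5 = 1 ∨ p % 5 = 4) ∧ IsSquare (p : ZMod 11))) := by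
  obtain ⟨k, rfl⟩ := hpn
  have hk : 0 < k := Nat.pos_of_ne_zero (by rintro rfl; simp at hn)
  have hpS : ¬ InS p := fun h => hS (inS_mul p k hk h)
  by_cases h2 : p = 2
  · exact Or.inl h2
  by_cases h5 : p = 5
  · exact Or.inr (Or.inl h5)
  by_cases h11 : p = 11
  · exact Or.inr (Or.inr (Or.inl h11))
  refine Or.inr (Or.inr (Or.inr ?_))
  have h3 : p ≠ 3 := by rintro rfl; exact hpS inS_three
  have hodd : p % 2 = 1 := hp.eq_two_or_odd.resolve_left h2
  have hm3 : p % 3 ≠ 0 := by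
    intro h
    exact h3 ((Nat.prime_dvd_prime_iff_eq Nat.prime_three hp).1 (Nat.dvd_of_mod_eq_zero h)).symm
  have hn1 : p % 3 ≠ 1 := fun h => hpS (inS_prime1 p hp h)
  have hn8 : ¬ (p % 8 = 1 ∨ p % 8 = 7) := fun h => hpS (inS_prime2 p hp h)
  have hnf : ¬ ((p % 5 = 1 ∨ p % 5 = 4) ∧ IsSquare (p : ZMod 11)) := fun h =>
    hpS (inS_prime3 p hp h11 h.1 h.2)
  have hcase : p % 24 = 5 ∨ p % 24 = 11 := by
    have e2 : p % 24 % 2 = p % 2 := Nat.mod_mod_of_dvd p (by norm_num)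
    have e3 : p % 24 % 3 = p % 3 := Nat.mod_mod_of_dvd p (by norm_num)
    have e8 : p % 24 % 8 = p % 8 := Nat.mod_mod_of_dvd p (by norm_num)
    have hlt : p % 24 < 24 := Nat.mod_lt _ (by norm_num)
    rw [← e2] at hodd
    rw [← e3] at hm3 hn1
    rw [← e8] at hn8
    generalize p % 24 = r at *
    interval_cases r <;> simp_all
  rcases hcase with h | h
  · exact Or.inl ⟨h, hnf⟩
  · refine Or.inr ⟨h, ?_, hnf⟩
    by_contra hc
    exact hpS (inS_prime4 p hp h hc)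

end Pool.Agent.Results.MP_43ce8a_nt.TwoFamilies
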